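import Mathlib

/-!
MP_d52620_an.  A negative answer to Q1: for the infinite dihedral group (finitely generated and
amenable) acting faithfully by isometries on the two-dimensional torus there is a cocycle with
zero mean against every invariant probability measure which is not a limit of coboundaries.
-/

open MeasureTheory

namespace Pool.Agent.Results.MP_d52620_an.DihedralTorus

/-- Amenability of a discrete group, in Foelner's form: for every finite set `K` of group elements
and every `ε > 0` there is a nonempty finite set `F` with `|g F \ F| ≤ ε |F|` for all `g ∈ K`. -/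
def IsAmenable (G : Type) [Group G] : Prop :=
  ∀ (K : Finset G) (ε : ℝ), 0 < ε → ∃ F : Finset G, F.Nonempty ∧
    ∀ g ∈ K, (Nat.card {x : G // x ∈ F ∧ g * x ∉ F} : ℝ) ≤ ε * (F.card : ℝ)

section defs

variable {G M : Type} [Group G] [TopologicalSpace M] [MulAction G M] [ContinuousConstSMul G M]

/-- `c : G × M → ℝ` (continuous in the space variable) is a cocycle over the action:
`c(gh, x) = c(g, h x) + c(h, x)`. -/
def IsCocycle (c : G → C(M, ℝ)) : Prop :=
  ∀ (g h : G) (x : M), c (g * h) x = c g (h • x) + c h x

/-- The coboundary `(δu)(g, x) = u(g x) - u(x)` of a continuous function `u`. -/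
def coboundary (u : C(M, ℝ)) (g : G) : C(M, ℝ) :=
  u.comp ⟨fun x => g • x, continuous_const_smul g⟩ - u

/-- `c` lies in the closure of the coboundaries for the norm `max_{s ∈ S} ‖c(s, ·)‖`. -/
def InClosureB [CompactSpace M] (S : Finset G) (c : G → C(M, ℝ)) : Prop :=
  ∀ ε : ℝ, 0 < ε → ∃ u : C(M, ℝ), ∀ s ∈ S, ‖c s - coboundary u s‖ < ε

/-- `∫ c(g, ·) dμ = 0` for all `g` and all Borel probability measures `μ` that are invariant under
every element of the group. -/
def InO [MeasurableSpace M] (c : G → C(M, ℝ)) : Prop :=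
  ∀ μ : Measure M, IsProbabilityMeasure μ →
    (∀ g : G, μ.map (fun x => g • x) = μ) → ∀ g : G, ∫ x, c g x ∂μ = 0

end defs

/-- The infinite dihedral group. -/
abbrev D : Type := DihedralGroup 0

/-- The symmetric generating set `{t, t⁻¹, a}` of the infinite dihedral group. -/
noncomputable def gens : Finset D :=
  open Classical in {DihedralGroup.r 1, DihedralGroup.r (-1), DihedralGroup.sr 0}

/-- The two-dimensional torus. -/
abbrev T2 : Type := Circle × Circle

/-- Integer value of an element of `ZMod 0` (which is definitionally `ℤ`). -/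
def val (i : ZMod 0) : ℤ := i

lemma val_add (i j : ZMod 0) : val (i + j) = val i + val j := rfl
lemma val_sub (i j : ZMod 0) : val (i - j) = val i - val j := rfl
lemma val_zero : val 0 = 0 := rfl
lemma val_one : val 1 = 1 := rfl

lemma r_one_zpow (j : ℤ) : (DihedralGroup.r (1 : ZMod 0) : D) ^ j = DihedralGroup.r (Int.cast j) := by
  induction j using Int.induction_on with
  | zero => rw [zpow_zero, Int.cast_zero]; rfl
  | succ n ih => rw [zpow_add_one, ih, DihedralGroup.r_mul_r, Int.cast_add, Int.cast_one]
  | pred n ih =>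
    rw [zpow_sub_one, ih, DihedralGroup.inv_r, DihedralGroup.r_mul_r, Int.cast_sub, Int.cast_one,
      sub_eq_add_neg]

/-- The Borel sigma-algebra of the torus. -/
noncomputable instance instMeas : MeasurableSpace T2 := borel T2

instance instBorel : BorelSpace T2 := ⟨rfl⟩

lemma gens_closure : Subgroup.closure (gens : Set D) = ⊤ := by
  have h1 : (DihedralGroup.r 1 : D) ∈ Subgroup.closure (gens : Set D) :=
    Subgroup.subset_closure (by simp [gens])
  have h2 : (DihedralGroup.sr 0 : D) ∈ Subgroup.closure (gens : Set D) :=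
    Subgroup.subset_closure (by simp [gens])
  have hr : ∀ i : ZMod 0, (DihedralGroup.r i : D) ∈ Subgroup.closure (gens : Set D) := by
    intro i
    have h3 := Subgroup.zpow_mem _ h1 (val i)
    rw [r_one_zpow] at h3
    have : (Int.cast (val i) : ZMod 0) = i := Int.cast_id
    rwa [this] at h3
  rw [eq_top_iff]
  rintro (i | i) -
  · exact hr i
  · have := Subgroup.mul_mem _ h2 (hr i)
    rwa [DihedralGroup.sr_mul_r, zero_add] at this

lemma gens_symm : ∀ s ∈ gens, s⁻¹ ∈ gens := by
  intro s hs
  simp only [gens, Finset.mem_insert, Finset.mem_singleton] at hs ⊢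
  rcases hs with rfl | rfl | rfl
  · right; left; exact DihedralGroup.inv_r 1
  · left; rw [DihedralGroup.inv_r, neg_neg]
  · right; right; exact DihedralGroup.inv_sr 0

lemma one_notMem_gens : (1 : D) ∉ gens := by
  simp only [gens, Finset.mem_insert, Finset.mem_singleton, DihedralGroup.one_def]
  rintro (h | h | h)
  · have := DihedralGroup.r.inj h
    have h2 : (0 : ℤ) = 1 := this
    omega
  · have := DihedralGroup.r.inj h
    have h2 : (0 : ℤ) = -1 := this
    omega
  · cases h

/-- The action of the infinite dihedral group on the torus: `t (z, w) = (z, e^{i} w)` and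
`a (z, w) = (z⁻¹, w⁻¹)`. -/
noncomputable def act : D → T2 → T2
  | DihedralGroup.r i, (z, w) => (z, w * Circle.exp (val i))
  | DihedralGroup.sr i, (z, w) => (z⁻¹, (w * Circle.exp (val i))⁻¹)

noncomputable instance instAct : MulAction D T2 where
  smul := act
  one_smul := by
    rintro ⟨z, w⟩
    show act (DihedralGroup.r 0) (z, w) = (z, w)
    simp [act, val_zero]
  mul_smul := by
    rintro (i | i) (j | j) ⟨z, w⟩
    · show act (DihedralGroup.r i * DihedralGroup.r j) (z, w) = act _ (act _ (z, w))
      rw [DihedralGroup.r_mul_r]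
      simp only [act, val_add, Int.cast_add, Circle.exp_add, Prod.mk.injEq, true_and]
      rw [mul_assoc, mul_comm (Circle.exp (val i : ℝ))]
    · show act (DihedralGroup.r i * DihedralGroup.sr j) (z, w) = act _ (act _ (z, w))
      rw [DihedralGroup.r_mul_sr]
      simp only [act, val_sub, Int.cast_sub, Circle.exp_sub, Prod.mk.injEq, true_and]
      rw [mul_inv, mul_inv, inv_div, div_eq_mul_inv, mul_assoc, mul_comm (Circle.exp (val i : ℝ))]
    · show act (DihedralGroup.sr i * DihedralGroup.r j) (z, w) = act _ (act _ (z, w))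
      rw [DihedralGroup.sr_mul_r]
      simp only [act, val_add, Int.cast_add, Circle.exp_add, Prod.mk.injEq, true_and]
      rw [mul_assoc, mul_comm (Circle.exp (val i : ℝ))]
    · show act (DihedralGroup.sr i * DihedralGroup.sr j) (z, w) = act _ (act _ (z, w))
      rw [DihedralGroup.sr_mul_sr]
      simp only [act, val_sub, Int.cast_sub, Circle.exp_sub, Prod.mk.injEq, inv_inv, true_and]
      rw [div_eq_mul_inv, mul_inv, inv_inv, mul_assoc]

lemma r_smul (i : ZMod 0) (x : T2) :
    (DihedralGroup.r i : D) • x = (x.1, x.2 * Circle.exp (val i)) := rfl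

lemma sr_smul (i : ZMod 0) (x : T2) :
    (DihedralGroup.sr i : D) • x = (x.1⁻¹, (x.2 * Circle.exp (val i))⁻¹) := rfl

lemma val_injective {i j : ZMod 0} (h : (val i : ℝ) = (val j : ℝ)) : i = j := by
  have : val i = val j := by exact_mod_cast h
  exact this

noncomputable instance instContSMul : ContinuousConstSMul D T2 where
  continuous_const_smul := by
    rintro (i | i)
    · show Continuous fun x : T2 => (x.1, x.2 * Circle.exp (val i))
      fun_prop
    · show Continuous fun x : T2 => (x.1⁻¹, (x.2 * Circle.exp (val i))⁻¹)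
      fun_prop

lemma isometry_smul_D (g : D) : Isometry (fun x : T2 => g • x) := by
  have hmul : ∀ c : Circle, Isometry (fun w : Circle => w * c) := by
    intro c
    refine Isometry.of_dist_eq fun u v => ?_
    show dist ((u * c : Circle) : ℂ) ((v * c : Circle) : ℂ) = dist (u : ℂ) (v : ℂ)
    rw [dist_eq_norm, dist_eq_norm]
    simp only [Circle.coe_mul, ← sub_mul, norm_mul, Circle.norm_coe, mul_one]
  have hinv : Isometry (fun w : Circle => w⁻¹) := by
    refine Isometry.of_dist_eq fun u v => ?_
    show dist ((u⁻¹ : Circle) : ℂ) ((v⁻¹ : Circle) : ℂ) = dist (u : ℂ) (v : ℂ)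
    rw [dist_eq_norm, dist_eq_norm]
    rw [Circle.coe_inv_eq_conj, Circle.coe_inv_eq_conj, ← map_sub, RCLike.norm_conj]
  rcases g with (i | i)
  · show Isometry fun x : T2 => (x.1, x.2 * Circle.exp (val i))
    exact Isometry.prodMap isometry_id (hmul _)
  · show Isometry fun x : T2 => (x.1⁻¹, (x.2 * Circle.exp (val i))⁻¹)
    exact Isometry.prodMap hinv (hinv.comp (hmul _))

/-- The value of the cocycle: an odd function of the first coordinate times the `t`-exponent. -/
noncomputable def coc : D → C(T2, ℝ)
  | DihedralGroup.r i => ⟨fun x => (val i : ℝ) * (x.1 : ℂ).im, by fun_prop⟩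
  | DihedralGroup.sr i => ⟨fun x => (val i : ℝ) * (x.1 : ℂ).im, by fun_prop⟩

lemma coc_r (i : ZMod 0) (x : T2) : coc (DihedralGroup.r i) x = (val i : ℝ) * (x.1 : ℂ).im := rfl
lemma coc_sr (i : ZMod 0) (x : T2) : coc (DihedralGroup.sr i) x = (val i : ℝ) * (x.1 : ℂ).im := rfl

lemma im_inv (z : Circle) : ((z⁻¹ : Circle) : ℂ).im = -(z : ℂ).im := by
  rw [Circle.coe_inv_eq_conj, Complex.conj_im]

lemma coc_cocycle : IsCocycle coc := by
  rintro (i | i) (j | j) x
  · rw [DihedralGroup.r_mul_r, coc_r, coc_r, coc_r, r_smul, val_add]; push_cast; ring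
  · rw [DihedralGroup.r_mul_sr, coc_sr, coc_r, coc_sr, sr_smul, val_sub]
    simp only [im_inv]; push_cast; ring
  · rw [DihedralGroup.sr_mul_r, coc_sr, coc_sr, coc_r, r_smul, val_add]; push_cast; ring
  · rw [DihedralGroup.sr_mul_sr, coc_r, coc_sr, coc_sr, sr_smul, val_sub]
    simp only [im_inv]; push_cast; ring

lemma coc_inO : InO coc := by
  intro μ hμ hinv
  have key : ∫ x : T2, (x.1 : ℂ).im ∂μ = 0 := by
    have h1 : ∫ x : T2, (x.1 : ℂ).im ∂μ = ∫ x : T2, (x.1 : ℂ).im ∂(μ.map (fun x => (DihedralGroup.sr 0 : D) • x)) := by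
      rw [hinv]
    rw [integral_map (continuous_const_smul _).aemeasurable
      (by apply Continuous.aestronglyMeasurable; fun_prop)] at h1
    have h2 : ∀ x : T2, ((((DihedralGroup.sr 0 : D) • x).1 : Circle) : ℂ).im = -(x.1 : ℂ).im := by
      intro x; rw [sr_smul]; exact im_inv _
    simp only [h2, integral_neg] at h1
    linarith
  rintro (i | i)
  · simp only [coc_r, integral_const_mul, key, mul_zero]
  · simp only [coc_sr, integral_const_mul, key, mul_zero]

lemma coc_not_closure : ¬ InClosureB gens coc := by
  intro h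
  obtain ⟨u, hu⟩ := h (1 / 2) (by norm_num)
  have ht := hu (DihedralGroup.r 1) (by simp [gens])
  set t : D := DihedralGroup.r 1
  have hI : ‖Complex.I‖ = 1 := by simp
  let z : Circle := ⟨Complex.I, by simp [Submonoid.unitSphere]⟩
  have hz : (z : ℂ).im = 1 := Complex.I_im
  -- the orbit
  have hstep : ∀ w : Circle, |1 - (u (t • (z, w)) - u (z, w))| ≤ 1 / 2 := by
    intro w
    have h1 := (coc t - coboundary u t).norm_coe_le_norm (z, w)
    have h2 : (coc t - coboundary u t) (z, w) = 1 - (u (t • (z, w)) - u (z, w)) := by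
      show coc t (z, w) - (u (t • (z, w)) - u (z, w)) = _
      rw [coc_r, val_one]
      simp [hz]
    rw [h2, Real.norm_eq_abs] at h1
    linarith
  have hn : ∀ n : ℕ, ∀ w : Circle, ∃ w' : Circle, (n : ℝ) / 2 ≤ u (z, w') - u (z, w) := by
    intro n
    induction n with
    | zero => intro w; exact ⟨w, by simp⟩
    | succ n ih =>
      intro w
      obtain ⟨w', hw'⟩ := ih w
      refine ⟨w' * Circle.exp (val 1), ?_⟩
      have h3 := hstep w'
      have h4 : t • (z, w') = (z, w' * Circle.exp (val 1)) := rfl
      rw [h4, abs_le] at h3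
      push_cast
      linarith [h3.2]
  obtain ⟨n, hn'⟩ := exists_nat_gt (4 * ‖u‖)
  obtain ⟨w', hw'⟩ := hn n 1
  have h5 := u.norm_coe_le_norm (z, w')
  have h6 := u.norm_coe_le_norm (z, 1)
  rw [Real.norm_eq_abs] at h5 h6
  have := abs_le.1 h5
  have := abs_le.1 h6
  linarith

/-- `r j` and `sr j` for `j` in a finite set of integers. -/
def both (A : Finset ℤ) : Finset D :=
  A.image (fun j : ℤ => (DihedralGroup.r (Int.cast j) : D)) ∪
    A.image (fun j : ℤ => (DihedralGroup.sr (Int.cast j) : D))

lemma mem_both_r {A : Finset ℤ} {i : ZMod 0} : (DihedralGroup.r i : D) ∈ both A ↔ val i ∈ A := by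
  simp only [both, Finset.mem_union, Finset.mem_image]
  constructor
  · rintro (⟨j, hj, h⟩ | ⟨j, hj, h⟩)
    · have := DihedralGroup.r.inj h
      have h2 : val (Int.cast j) = val i := by rw [this]
      have h3 : val (Int.cast j) = j := Int.cast_id
      rw [← h2, h3]; exact hj
    · cases h
  · intro h
    exact Or.inl ⟨val i, h, by rw [show (Int.cast (val i) : ZMod 0) = i from Int.cast_id]⟩

lemma mem_both_sr {A : Finset ℤ} {i : ZMod 0} : (DihedralGroup.sr i : D) ∈ both A ↔ val i ∈ A := by
  simp only [both, Finset.mem_union, Finset.mem_image]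
  constructor
  · rintro (⟨j, hj, h⟩ | ⟨j, hj, h⟩)
    · cases h
    · have := DihedralGroup.sr.inj h
      have h2 : val (Int.cast j) = val i := by rw [this]
      have h3 : val (Int.cast j) = j := Int.cast_id
      rw [← h2, h3]; exact hj
  · intro h
    exact Or.inr ⟨val i, h, by rw [show (Int.cast (val i) : ZMod 0) = i from Int.cast_id]⟩

lemma card_both_le (A : Finset ℤ) : (both A).card ≤ 2 * A.card := by
  refine (Finset.card_union_le _ _).trans ?_
  have := Finset.card_image_le (s := A) (f := fun j : ℤ => (DihedralGroup.r (Int.cast j) : D))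
  have := Finset.card_image_le (s := A) (f := fun j : ℤ => (DihedralGroup.sr (Int.cast j) : D))
  omega

lemma le_card_both (A : Finset ℤ) : A.card ≤ (both A).card := by
  have h1 : (A.image (fun j : ℤ => (DihedralGroup.r (Int.cast j) : D))).card = A.card := by
    apply Finset.card_image_of_injective
    intro a b h
    exact DihedralGroup.r.inj h
  rw [← h1]
  exact Finset.card_le_card Finset.subset_union_left

/-- The integer attached to an element. -/
def idx : D → ℤ
  | DihedralGroup.r i => val i
  | DihedralGroup.sr i => val i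

lemma amenable_D : IsAmenable D := by
  intro K ε hε
  classical
  obtain ⟨m, hm⟩ : ∃ m : ℕ, ∀ g ∈ K, |idx g| ≤ (m : ℤ) := by
    refine ⟨K.sup fun g => (idx g).natAbs, fun g hg => ?_⟩
    have h7 : (idx g).natAbs ≤ K.sup fun g => (idx g).natAbs :=
      Finset.le_sup (f := fun g => (idx g).natAbs) hg
    rw [Int.abs_eq_natAbs]
    exact_mod_cast h7
  obtain ⟨n, hn⟩ := exists_nat_gt (4 * (m : ℝ) / ε)
  refine ⟨both (Finset.Icc (-(n : ℤ)) n), ?_, ?_⟩
  · exact ⟨DihedralGroup.r 0, mem_both_r.2 (by simp [val_zero])⟩
  · intro g hg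
    have hgm := hm g hg
    set A : Finset ℤ := Finset.Ioc ((n : ℤ) - m) n ∪ Finset.Ico (-(n : ℤ)) (-n + m) with hA
    have hAc : A.card ≤ 2 * m := by
      refine (Finset.card_union_le _ _).trans ?_
      rw [Int.card_Ioc, Int.card_Ico]
      omega
    have hsub : {x : D | x ∈ both (Finset.Icc (-(n : ℤ)) n) ∧ g * x ∉ both (Finset.Icc (-(n : ℤ)) n)} ⊆
        (both A : Set D) := by
      rintro (j | j) ⟨h1, h2⟩
      · rw [mem_both_r, Finset.mem_Icc] at h1
        rw [Finset.mem_coe, mem_both_r, hA, Finset.mem_union, Finset.mem_Ioc, Finset.mem_Ico]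
        rcases g with (i | i)
        · rw [DihedralGroup.r_mul_r, mem_both_r, val_add, Finset.mem_Icc] at h2
          have : |val i| ≤ (m : ℤ) := hgm
          rw [abs_le] at this
          omega
        · rw [DihedralGroup.sr_mul_r, mem_both_sr, val_add, Finset.mem_Icc] at h2
          have : |val i| ≤ (m : ℤ) := hgm
          rw [abs_le] at this
          omega
      · rw [mem_both_sr, Finset.mem_Icc] at h1
        rw [Finset.mem_coe, mem_both_sr, hA, Finset.mem_union, Finset.mem_Ioc, Finset.mem_Ico]
        rcases g with (i | i)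
        · rw [DihedralGroup.r_mul_sr, mem_both_sr, val_sub, Finset.mem_Icc] at h2
          have : |val i| ≤ (m : ℤ) := hgm
          rw [abs_le] at this
          omega
        · rw [DihedralGroup.sr_mul_sr, mem_both_r, val_sub, Finset.mem_Icc] at h2
          have : |val i| ≤ (m : ℤ) := hgm
          rw [abs_le] at this
          omega
    have hcard : Nat.card {x : D // x ∈ both (Finset.Icc (-(n : ℤ)) n) ∧
        g * x ∉ both (Finset.Icc (-(n : ℤ)) n)} ≤ 4 * m := by
      have h1 := Nat.card_mono (Finset.finite_toSet (both A)) hsub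
      have h2 : Nat.card (both A : Set D) = (both A).card := by simp
      have h3 := card_both_le A
      have h4 : Nat.card {x : D // x ∈ both (Finset.Icc (-(n : ℤ)) n) ∧
        g * x ∉ both (Finset.Icc (-(n : ℤ)) n)} ≤ (both A).card := by
        rw [← h2]; exact h1
      omega
    have h5 : (n : ℝ) ≤ ((both (Finset.Icc (-(n : ℤ)) n)).card : ℝ) := by
      have := le_card_both (Finset.Icc (-(n : ℤ)) n)
      rw [Int.card_Icc] at this
      have h6 : n ≤ (both (Finset.Icc (-(n : ℤ)) n)).card := by omega
      exact_mod_cast h6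
    calc (Nat.card {x : D // x ∈ both (Finset.Icc (-(n : ℤ)) n) ∧
        g * x ∉ both (Finset.Icc (-(n : ℤ)) n)} : ℝ) ≤ 4 * m := by exact_mod_cast hcard
      _ ≤ ε * n := by
        rw [div_lt_iff₀ hε] at hn
        linarith
      _ ≤ _ := by gcongr

instance instFaithful : FaithfulSMul D T2 where
  eq_of_smul_eq_smul := by
    have hexp : ∀ k : ℤ, Circle.exp (k : ℝ) = 1 → k = 0 := by
      intro k hk
      rw [Circle.exp_eq_one] at hk
      obtain ⟨m, hm⟩ := hk
      by_contra hk0
      have hm0 : m ≠ 0 := by
        rintro rfl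
        apply hk0
        have : (k : ℝ) = 0 := by simpa using hm
        exact_mod_cast this
      apply irrational_pi
      refine ⟨(k : ℚ) / (2 * m), ?_⟩
      have : (m : ℝ) ≠ 0 := by exact_mod_cast hm0
      push_cast
      field_simp
      linarith
    intro g h hgh
    let z : Circle := ⟨Complex.I, by simp [Submonoid.unitSphere]⟩
    have hz : (z : ℂ).im = 1 := Complex.I_im
    have hI : z ≠ z⁻¹ := by
      intro h
      have h8 : (z : ℂ).im = ((z⁻¹ : Circle) : ℂ).im := by rw [← h]
      rw [im_inv, hz] at h8
      norm_num at h8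
    rcases g with (i | i) <;> rcases h with (j | j)
    · have h1 := congrArg Prod.snd (hgh (1, 1))
      rw [r_smul, r_smul] at h1
      simp only [one_mul] at h1
      have h2 : Circle.exp ((val i - val j : ℤ) : ℝ) = 1 := by
        push_cast
        rw [Circle.exp_sub, h1, div_self']
      have h3 := hexp _ h2
      congr 1
      exact val_injective (by exact_mod_cast (sub_eq_zero.1 h3))
    · have h1 := congrArg Prod.fst (hgh (z, 1))
      rw [r_smul, sr_smul] at h1
      exact absurd h1 hI
    · have h1 := congrArg Prod.fst (hgh (z, 1))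
      rw [r_smul, sr_smul] at h1
      exact absurd h1.symm hI
    · have h1 := congrArg Prod.snd (hgh (1, 1))
      rw [sr_smul, sr_smul] at h1
      simp only [one_mul, inv_inj] at h1
      have h2 : Circle.exp ((val i - val j : ℤ) : ℝ) = 1 := by
        push_cast
        rw [Circle.exp_sub, h1, div_self']
      have h3 := hexp _ h2
      congr 1
      exact val_injective (by exact_mod_cast (sub_eq_zero.1 h3))

/-- **Negative answer to Q1.**  The infinite dihedral group `D` is amenable and generated by the
finite symmetric set `gens` (which does not contain the identity).  It acts on the two-dimensional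
torus (a connected compact metric space) faithfully and by isometries, and for this action there is
a continuous real cocycle `c` with `∫ c(g, ·) dμ = 0` for all `g` and all invariant Borel
probability measures `μ` that does not lie in the closure of the coboundaries. -/
theorem result :
    IsAmenable D ∧ Subgroup.closure (gens : Set D) = ⊤ ∧ (∀ s ∈ gens, s⁻¹ ∈ gens) ∧
      (1 : D) ∉ gens ∧ ConnectedSpace T2 ∧ CompactSpace T2 ∧ FaithfulSMul D T2 ∧
      (∀ g : D, Isometry (fun x : T2 => g • x)) ∧
      ∃ c : D → C(T2, ℝ), IsCocycle c ∧ InO c ∧ ¬ InClosureB gens c := by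
  refine ⟨amenable_D, gens_closure, gens_symm, one_notMem_gens, ?_, inferInstance, inferInstance,
    isometry_smul_D, coc, coc_cocycle, coc_inO, coc_not_closure⟩
  have : ConnectedSpace Circle := inferInstance
  infer_instance

end Pool.Agent.Results.MP_d52620_an.DihedralTorus
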